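import Mathlib

namespace Pool.Agent.H.MP_8c175f_gt

open Cardinal Set Filter Order

noncomputable section

/-- Any family of points of a countable product of well orders has a coinitial subfamily of size
at most continuum. -/
theorem coinitial {Z : Type} {K : ℕ → Type} [∀ k, LinearOrder (K k)] [∀ k, WellFoundedLT (K k)]
    (g : Z → ∀ k, K k) : ∃ M : Set Z, #M ≤ 𝔠 ∧ ∀ z, ∃ m ∈ M, ∀ k, g m k ≤ g z k := by
  classical
  rcases isEmpty_or_nonempty Z with hZ | hZ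
  · exact ⟨∅, by simp, fun z => isEmptyElim z⟩
  let Φ : (Σ D : Set ℕ, (D → Z)) → Z := fun x =>
    Classical.epsilon fun z => ∀ k : x.1, g z k < g (x.2 k) k
  let ev : WType (fun D : Set ℕ => D) → Z := WType.elim Z Φ
  refine ⟨range ev, ?_, fun z => ?_⟩
  · refine mk_range_le.trans (WType.cardinalMk_le_of_le ?_)
    calc (Cardinal.sum fun D : Set ℕ => (𝔠 : Cardinal.{0}) ^ #D)
        ≤ Cardinal.sum fun _ : Set ℕ => (𝔠 : Cardinal.{0}) := by
          refine Cardinal.sum_le_sum _ _ fun D => ?_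
          calc (𝔠 : Cardinal.{0}) ^ #D ≤ 𝔠 ^ ℵ₀ :=
                power_le_power_left continuum_ne_zero mk_le_aleph0
            _ = 𝔠 := continuum_power_aleph0
      _ = 𝔠 := by simp
  · let D : Set ℕ := {k | ∃ w, g z k < g (ev w) k}
    have hm : ∀ k : D, ∃ w, g z k < g (ev w) k ∧
        ∀ w', g z k < g (ev w') k → g (ev w) k ≤ g (ev w') k := by
      intro k
      obtain ⟨w0, hw0⟩ := k.2
      obtain ⟨a, ⟨w, hw, rfl⟩, hmin⟩ := (wellFounded_lt (α := K k)).has_min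
        {a | ∃ w, g z k < g (ev w) k ∧ g (ev w) k = a} ⟨_, w0, hw0, rfl⟩
      exact ⟨w, hw, fun w' hw' => not_lt.1 (hmin _ ⟨w', hw', rfl⟩)⟩
    choose m hm1 hm2 using hm
    have hspec : ∀ k : D, g (ev ⟨D, m⟩) k < g (ev (m k)) k :=
      Classical.epsilon_spec (p := fun z => ∀ k : D, g z k < g (ev (m k)) k) ⟨z, hm1⟩
    refine ⟨ev ⟨D, m⟩, mem_range_self _, fun k => ?_⟩
    by_contra hlt
    rw [not_le] at hlt
    have hk : k ∈ D := ⟨_, hlt⟩
    exact absurd (hm2 ⟨k, hk⟩ _ hlt) (not_le.2 (hspec ⟨k, hk⟩))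

/-- A scale modulo the ultrafilter. -/
structure Good {K : ℕ → Type} [∀ k, LinearOrder (K k)] {Λ : Type} [LinearOrder Λ]
    (f : Λ → ∀ k, K k) (lam : Cardinal.{0}) : Prop where
  cb : ∀ (k : ℕ) (s : Set (K k)), s.Countable → ∃ b, ∀ a ∈ s, a < b
  mono : ∀ α β, α ≤ β → ∀ᶠ k in hyperfilter ℕ, f α k ≤ f β k
  cof : ∀ a : ∀ k, K k, ∃ α, ∀ᶠ k in hyperfilter ℕ, a k ≤ f α k
  bdd : ∀ s : Set Λ, #s < lam → ∃ γ, ∀ α ∈ s, α < γ
  seg : ∀ β : Λ, #(Iic β) < lam
  big : #(Σ k, K k) < lam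
  cont : 𝔠 < lam

def kap (k : ℕ) : Cardinal.{0} := (Order.succ)^[k + 1] 𝔠

theorem kap_succ (k : ℕ) : kap (k + 1) = Order.succ (kap k) := by
  unfold kap
  rw [Function.iterate_succ_apply']

theorem kap_zero : kap 0 = Order.succ 𝔠 := rfl

theorem kap_strictMono : StrictMono kap :=
  strictMono_nat_of_lt_succ fun k => by rw [kap_succ]; exact Order.lt_succ _

theorem cont_lt_kap (k : ℕ) : 𝔠 < kap k :=
  (Order.lt_succ _).trans_le (kap_strictMono.monotone (Nat.zero_le k))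

theorem kap_reg (k : ℕ) : (kap k).IsRegular := by
  cases k with
  | zero => exact isRegular_succ aleph0_le_continuum
  | succ k =>
    rw [kap_succ]
    exact isRegular_succ (aleph0_le_continuum.trans (cont_lt_kap k).le)

abbrev KK (k : ℕ) : Type := (kap k).ord.ToType

theorem KK_bdd (k : ℕ) (s : Set (KK k)) (hs : #s < kap k) : ∃ b, ∀ a ∈ s, a < b := by
  rw [← not_isCofinal_iff]
  intro h
  have := Order.cof_le h
  rw [Ordinal.cof_toType, (kap_reg k).cof_ord] at this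
  exact absurd hs (not_lt.2 this)

theorem KK_dir {I : Type} (hI : #I ≤ #(Σ k, KK k)) (g : I → ∀ k, KK k) :
    ∃ h : ∀ k, KK k, ∀ i, ∀ᶠ k in atTop, g i k < h k := by
  obtain ⟨e⟩ := (Cardinal.le_def _ _).1 hI
  have h1 : ∀ k j, j < k → ∃ b : KK k, ∀ i, (e i).1 = j → g i k < b := by
    intro k j hjk
    obtain ⟨b, hb⟩ := KK_bdd k ((fun i => g i k) '' {i | (e i).1 = j}) (by
      refine mk_image_le.trans_lt (lt_of_le_of_lt ?_ (kap_strictMono hjk))
      rw [← mk_ord_toType (kap j)]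
      refine mk_le_of_injective (f := fun i : {i | (e i).1 = j} =>
        (cast (congrArg KK i.2) (e i.1).2 : KK j)) ?_
      intro i i' h
      apply Subtype.ext
      apply e.injective
      have h1 : (e i.1).1 = (e i'.1).1 := i.2.trans i'.2.symm
      exact Sigma.ext h1 (((cast_heq _ _).symm.trans (heq_of_eq h)).trans (cast_heq _ _)))
    exact ⟨b, fun i hi => hb _ ⟨i, hi, rfl⟩⟩
  choose b hb using h1
  have h2 : ∀ k, ∃ c : KK k, ∀ j (hj : j < k), b k j hj < c := by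
    intro k
    obtain ⟨c, hc⟩ := KK_bdd k (range fun j : Fin k => b k j j.2) (by
      refine mk_range_le.trans_lt ?_
      exact (lt_aleph0_of_finite _).trans_le (kap_reg k).aleph0_le)
    exact ⟨c, fun j hj => hc _ ⟨⟨j, hj⟩, rfl⟩⟩
  choose c hc using h2
  refine ⟨c, fun i => ?_⟩
  filter_upwards [eventually_gt_atTop (e i).1] with k hk
  exact (hb k _ hk i rfl).trans (hc k _ hk)

theorem exists_good : ∃ (Λ : Type) (_ : LinearOrder Λ) (_ : WellFoundedLT Λ)
    (f : Λ → ∀ k, KK k) (lam : Cardinal.{0}), Good f lam := by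
  let Cf : Set (∀ k, KK k) → Prop := fun C =>
    ∀ a : ∀ k, KK k, ∃ c ∈ C, ∀ᶠ k in hyperfilter ℕ, a k ≤ c k
  obtain ⟨lam, ⟨C, hC, hCl⟩, hmin⟩ := Cardinal.lt_wf.has_min {l | ∃ C, Cf C ∧ #C = l}
    ⟨_, univ, fun a => ⟨a, trivial, Eventually.of_forall fun _ => le_rfl⟩, rfl⟩
  have hbig : #(Σ k, KK k) < lam := by
    by_contra hle
    rw [not_lt, ← hCl] at hle
    obtain ⟨h, hh⟩ := KK_dir hle (fun c : C => c.1)
    obtain ⟨c, hc, hc2⟩ := hC h
    have h3 : ∀ᶠ k in hyperfilter ℕ, c k < h k :=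
      (hh ⟨c, hc⟩).filter_mono Nat.hyperfilter_le_atTop
    obtain ⟨k, hk1, hk2⟩ := (hc2.and h3).exists
    exact absurd hk1 (not_le.2 hk2)
  have hcont : 𝔠 < lam := by
    refine lt_of_le_of_lt ?_ hbig
    refine (cont_lt_kap 0).le.trans ?_
    rw [← mk_ord_toType (kap 0)]
    exact mk_le_of_injective (f := fun a : KK 0 => (⟨0, a⟩ : Σ k, KK k)) sigma_mk_injective
  obtain ⟨e⟩ : Nonempty (lam.ord.ToType ≃ C) := Cardinal.eq.1 (by rw [mk_ord_toType, hCl])
  let g : lam.ord.ToType → ∀ k, KK k := fun t => (e t).1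
  let Λ := {t : lam.ord.ToType // ∀ s < t, ∀ᶠ k in hyperfilter ℕ, g s k < g t k}
  have hcof : ∀ a : ∀ k, KK k, ∃ α : Λ, ∀ᶠ k in hyperfilter ℕ, a k ≤ g α.1 k := by
    intro a
    obtain ⟨c, hc, hc2⟩ := hC a
    obtain ⟨t, ht, htm⟩ := (wellFounded_lt (α := lam.ord.ToType)).has_min
      {t | ∀ᶠ k in hyperfilter ℕ, a k ≤ g t k} ⟨e.symm ⟨c, hc⟩, by simpa [g] using hc2⟩
    refine ⟨⟨t, fun s hs => ?_⟩, ht⟩
    have h1 : ¬ ∀ᶠ k in hyperfilter ℕ, a k ≤ g s k := fun h => htm s h hs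
    rw [← Ultrafilter.eventually_not] at h1
    filter_upwards [h1, ht] with k h1 h2
    exact (not_le.1 h1).trans_le h2
  have hmono : ∀ α β : Λ, α ≤ β → ∀ᶠ k in hyperfilter ℕ, g α.1 k ≤ g β.1 k := by
    intro α β h
    rcases h.eq_or_lt with rfl | h
    · exact Eventually.of_forall fun _ => le_rfl
    · exact (β.2 α.1 h).mono fun k hk => hk.le
  refine ⟨Λ, inferInstance, inferInstance, fun α => g α.1, lam, ?_, hmono, hcof, ?_, ?_, hbig,
    hcont⟩
  · intro k s hs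
    exact KK_bdd k s ((le_aleph0_iff_set_countable.2 hs).trans_lt
      (aleph0_lt_continuum.trans (cont_lt_kap k)))
  · intro s hs
    have h1 : ¬ Cf ((fun α : Λ => g α.1) '' s) := fun h =>
      hmin _ ⟨_, h, rfl⟩ (mk_image_le.trans_lt hs)
    simp only [Cf, not_forall, not_exists, not_and] at h1
    obtain ⟨a, ha⟩ := h1
    obtain ⟨γ, hγ⟩ := hcof a
    refine ⟨γ, fun α hα => ?_⟩
    by_contra hle
    refine ha _ ⟨α, hα, rfl⟩ ?_
    filter_upwards [hγ, hmono γ α (not_lt.1 hle)] with k h1 h2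
    exact h1.trans h2
  · intro β
    have h1 : #(Iic β) ≤ #(Iic β.1) :=
      mk_le_of_injective (f := fun x : Iic β => (⟨x.1.1, x.2⟩ : Iic β.1))
        fun x y h => Subtype.ext (Subtype.ext (congrArg (fun z : Iic β.1 => z.1) h))
    refine h1.trans_lt ?_
    rw [← Iio_insert]
    refine mk_insert_le.trans_lt (add_lt_of_lt (aleph0_le_continuum.trans hcont.le) ?_ ?_)
    · exact mk_Iio_toType_ord_lt β.1
    · exact one_lt_aleph0.trans (aleph0_lt_continuum.trans hcont)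

end

end Pool.Agent.H.MP_8c175f_gt
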