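import Mathlib
import Pool.Agent.H.MP_8c175f_gt.A

namespace Pool.Agent.H.MP_8c175f_gt

open Cardinal Set Filter Order Topology

noncomputable section

variable {K : ℕ → Type} [∀ k, LinearOrder (K k)] {Λ : Type} [LinearOrder Λ]

/-- The points of the space. -/
@[ext] structure Sp (G : Bool → Prop) (f : Λ → ∀ k, K k) : Type where
  b : Bool
  l : Λ
  A : Set ℕ
  hA : A ∈ hyperfilter ℕ

variable {G : Bool → Prop} {f : Λ → ∀ k, K k} {lam : Cardinal.{0}}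

def Nb (p : Sp G f) (F : Finset ℕ) (β : WithBot Λ) (S : Set (Sp G f)) : Set (Sp G f) :=
  {q | (∀ k ∈ F, k ∈ q.A ∧ f q.l k ≤ f p.l k) ∧ β < q.l ∧ q ∉ S ∧
    (G p.b → G q.b ∧ q.A ⊆ p.A ∧ ∀ k ∈ q.A, f p.l k ≤ f q.l k)}

def Adm (p : Sp G f) (F : Finset ℕ) (β : WithBot Λ) (S : Set (Sp G f)) : Prop :=
  (∀ k ∈ F, k ∈ p.A) ∧ β < p.l ∧ S.Finite ∧ p ∉ S

instance : TopologicalSpace (Sp G f) where
  IsOpen W := ∀ p ∈ W, ∃ F β S, Adm p F β S ∧ Nb p F β S ⊆ W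
  isOpen_univ := fun p _ => ⟨∅, ⊥, ∅, ⟨by simp, WithBot.bot_lt_coe _, finite_empty, notMem_empty _⟩,
    subset_univ _⟩
  isOpen_inter := by
    classical
    rintro s t hs ht p ⟨hps, hpt⟩
    obtain ⟨F, β, S, ⟨h1, h2, h3, h4⟩, h5⟩ := hs p hps
    obtain ⟨F', β', S', ⟨h1', h2', h3', h4'⟩, h5'⟩ := ht p hpt
    refine ⟨F ∪ F', max β β', S ∪ S', ⟨?_, max_lt h2 h2', h3.union h3', ?_⟩, ?_⟩
    · intro k hk
      rcases Finset.mem_union.1 hk with hk | hk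
      exacts [h1 k hk, h1' k hk]
    · rintro (h | h)
      exacts [h4 h, h4' h]
    · rintro q ⟨q1, q2, q3, q4⟩
      exact ⟨h5 ⟨fun k hk => q1 k (Finset.mem_union_left _ hk), (max_lt_iff.1 q2).1,
          fun h => q3 (Or.inl h), q4⟩,
        h5' ⟨fun k hk => q1 k (Finset.mem_union_right _ hk), (max_lt_iff.1 q2).2,
          fun h => q3 (Or.inr h), q4⟩⟩
  isOpen_sUnion := by
    rintro s hs p ⟨W, hW, hp⟩
    obtain ⟨F, β, S, h1, h2⟩ := hs W hW p hp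
    exact ⟨F, β, S, h1, h2.trans (subset_sUnion_of_mem hW)⟩

theorem isOpen_iff {W : Set (Sp G f)} :
    IsOpen W ↔ ∀ p ∈ W, ∃ F β S, Adm p F β S ∧ Nb p F β S ⊆ W := Iff.rfl

instance : T1Space (Sp G f) where
  t1 q := ⟨isOpen_iff.2 fun p hp => ⟨∅, ⊥, {q},
    ⟨by simp, WithBot.bot_lt_coe _, finite_singleton _, hp⟩, fun _ h => h.2.2.1⟩⟩

def Low (G : Bool → Prop) (f : Λ → ∀ k, K k) (β : WithBot Λ) : Set (Sp G f) :=
  {q | (q.l : WithBot Λ) ≤ β}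

theorem isClosed_Low (β : WithBot Λ) : IsClosed (Low G f β) :=
  ⟨isOpen_iff.2 fun p hp => ⟨∅, β, ∅,
    ⟨by simp, not_le.1 hp, finite_empty, notMem_empty _⟩, fun _ h => not_le.2 h.2.1⟩⟩

def Uo (G : Bool → Prop) (f : Λ → ∀ k, K k) (x : Σ k, K k) : Set (Sp G f) :=
  {q | x.1 ∈ q.A ∧ f q.l x.1 < x.2}

theorem isOpen_Uo (x : Σ k, K k) : IsOpen (Uo G f x) :=
  isOpen_iff.2 fun p hp => ⟨{x.1}, ⊥, ∅,
    ⟨by simpa using hp.1, WithBot.bot_lt_coe _, finite_empty, notMem_empty _⟩,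
    fun _ h => ⟨(h.1 _ (Finset.mem_singleton_self _)).1,
      (h.1 _ (Finset.mem_singleton_self _)).2.trans_lt hp.2⟩⟩

def Vo (G : Bool → Prop) (f : Λ → ∀ k, K k) (a : ∀ k, K k) : Set (Sp G f) :=
  {q | G q.b ∧ ∀ k ∈ q.A, a k ≤ f q.l k}

theorem isOpen_Vo (a : ∀ k, K k) : IsOpen (Vo G f a) :=
  isOpen_iff.2 fun p hp => ⟨∅, ⊥, ∅,
    ⟨by simp, WithBot.bot_lt_coe _, finite_empty, notMem_empty _⟩,
    fun _ h => ⟨(h.2.2.2 hp.1).1, fun k hk =>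
      (hp.2 k ((h.2.2.2 hp.1).2.1 hk)).trans ((h.2.2.2 hp.1).2.2 k hk)⟩⟩

theorem cover_Uo (hg : Good f lam) (p : Sp G f) : ∃ x, p ∈ Uo G f x := by
  obtain ⟨k, hk⟩ := Ultrafilter.nonempty_of_mem p.hA
  obtain ⟨b, hb⟩ := hg.cb k {f p.l k} (countable_singleton _)
  exact ⟨⟨k, b⟩, hk, hb _ rfl⟩

theorem bound_ctbl (hg : Good f lam) (T : Set (Σ k, K k)) (hT : T.Countable) :
    ∃ a : ∀ k, K k, ∀ x ∈ T, x.2 < a x.1 := by
  have : ∀ k, ∃ b : K k, ∀ c, (⟨k, c⟩ : Σ k, K k) ∈ T → c < b := fun k =>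
    hg.cb k {c | (⟨k, c⟩ : Σ k, K k) ∈ T} (hT.preimage_of_injOn sigma_mk_injective.injOn)
  choose a ha using this
  exact ⟨a, fun x hx => ha x.1 x.2 hx⟩

theorem exists_out (hg : Good f lam) (a : ∀ k, K k) (b : Bool) :
    ∃ p : Sp G f, p.b = b ∧ ∀ k ∈ p.A, a k ≤ f p.l k := by
  obtain ⟨α, hα⟩ := hg.cof a
  exact ⟨⟨b, α, _, hα⟩, rfl, fun k hk => hk⟩

/-- The space is not weakly Lindelof as soon as there are generic points. -/
theorem not_weakly (hg : Good f lam) {b : Bool} (hb : G b) (T : Set (Set (Sp G f)))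
    (hT : T ⊆ range (Uo G f)) (hc : T.Countable) : ¬ Dense (⋃₀ T) := by
  intro hd
  have : Countable T := hc.to_subtype
  choose x hx using fun U : T => hT U.2
  obtain ⟨a, ha⟩ := bound_ctbl hg (range x) (countable_range x)
  obtain ⟨p, hp, hpa⟩ := exists_out (G := G) hg a b
  obtain ⟨q, hqV, U, hU, hqU⟩ :=
    hd.inter_open_nonempty (Vo G f a) (isOpen_Vo a) ⟨p, hp ▸ hb, hpa⟩
  have hq : q ∈ Uo G f (x ⟨U, hU⟩) := by rw [hx]; exact hqU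
  exact absurd ((ha _ ⟨_, rfl⟩).le.trans (hqV.2 _ hq.1)) (not_le.2 hq.2)

theorem not_lindelof (hg : Good f lam) : ¬ IsLindelof (univ : Set (Sp G f)) := by
  intro h
  obtain ⟨T, hT, hc⟩ := h.elim_countable_subcover (Uo G f) isOpen_Uo
    (fun p _ => mem_iUnion.2 (cover_Uo hg p))
  obtain ⟨a, ha⟩ := bound_ctbl hg T hT
  obtain ⟨p, -, hpa⟩ := exists_out (G := G) hg a true
  obtain ⟨x, hx, hpx⟩ := mem_iUnion₂.1 (hc (mem_univ p))
  exact absurd ((ha x hx).le.trans (hpa _ hpx.1)) (not_le.2 hpx.2)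

theorem lind_Low [WellFoundedLT Λ] (hg : Good f lam) {b0 : Bool} (hb : ¬ G b0)
    (Y : Set (Sp G f)) (hY : ∀ p, p.b = b0 → p ∈ Y) (δ : WithBot Λ) :
    IsLindelof (Y ∩ Low G f δ) := by
  induction δ using WellFoundedLT.induction with
  | ind δ ih =>
  cases δ with
  | bot =>
    have : Y ∩ Low G f ⊥ = ∅ := by
      ext p
      simp [Low]
    rw [this]
    exact isLindelof_empty
  | coe δ =>
    refine isLindelof_of_countable_subcover fun {ι} U hU hc => ?_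
    have h1 : ∀ A : {A : Set ℕ // A ∈ hyperfilter ℕ}, ∃ i F β S,
        Adm (⟨b0, δ, A.1, A.2⟩ : Sp G f) F β S ∧ Nb ⟨b0, δ, A.1, A.2⟩ F β S ⊆ U i := by
      intro A
      obtain ⟨i, hi⟩ := mem_iUnion.1 (hc (a := ⟨b0, δ, A.1, A.2⟩) ⟨hY _ rfl, le_refl (δ : WithBot Λ)⟩)
      obtain ⟨F, β, S, h1, h2⟩ := isOpen_iff.1 (hU i) _ hi
      exact ⟨i, F, β, S, h1, h2⟩
    choose i F β S h1 h2 using h1
    let r := rangeSplitting F
    let R : Set (Sp G f) := (⋃ x : range F, Y ∩ Low G f (β (r x))) ∪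
      ((⋃ x : range F, S (r x)) ∩ (Y ∩ Low G f δ))
    have hR : IsLindelof R := (isLindelof_iUnion fun x => ih _ (h1 _).2.1).union
      (((countable_iUnion fun x => (h1 _).2.2.1.countable).mono inter_subset_left).isLindelof)
    have hRs : R ⊆ Y ∩ Low G f δ := by
      rintro p (hp | hp)
      · obtain ⟨x, hx⟩ := mem_iUnion.1 hp
        exact ⟨hx.1, le_trans hx.2 (h1 _).2.1.le⟩
      · exact hp.2
    obtain ⟨t, ht, htc⟩ := hR.elim_countable_subcover U hU (hRs.trans hc)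
    refine ⟨t ∪ range (fun x => i (r x)), ht.union (countable_range _), fun p hp => ?_⟩
    by_cases hpR : p ∈ R
    · obtain ⟨j, hj, hpj⟩ := mem_iUnion₂.1 (htc hpR)
      exact mem_iUnion₂.2 ⟨j, Or.inl hj, hpj⟩
    · have hle : p.l ≤ δ := WithBot.coe_le_coe.1 hp.2
      let B : {A : Set ℕ // A ∈ hyperfilter ℕ} :=
        ⟨p.A ∩ {k | f p.l k ≤ f δ k}, inter_mem p.hA (hg.mono _ _ hle)⟩
      let x : range F := ⟨F B, mem_range_self B⟩
      have hx : F (r x) = F B := apply_rangeSplitting F x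
      refine mem_iUnion₂.2 ⟨i (r x), Or.inr ⟨x, rfl⟩, h2 (r x) ⟨?_, ?_, ?_, fun h => absurd h hb⟩⟩
      · intro k hk
        rw [hx] at hk
        exact (h1 B).1 k hk
      · by_contra hlt
        exact hpR (Or.inl (mem_iUnion.2 ⟨x, hp.1, not_lt.1 hlt⟩))
      · intro hS
        exact hpR (Or.inr ⟨mem_iUnion.2 ⟨x, hS⟩, hp⟩)

theorem pigeon (hg : Good f lam) {E T : Type} (hT : #T < lam) (τ : E → T) (lev : E → Λ)
    (h : ∀ t, ∃ γ, ∀ e, τ e = t → lev e ≤ γ) : ∃ γ, ∀ e, lev e ≤ γ := by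
  choose γ hγ using h
  obtain ⟨c, hc⟩ := hg.bdd (range γ) (mk_range_le.trans_lt hT)
  exact ⟨c, fun e => (hγ _ e rfl).trans (hc _ ⟨_, rfl⟩).le⟩

abbrev Code (K : ℕ → Type) : Type := Bool × Set ℕ × Finset (Σ k, K k)

theorem al0 (hg : Good f lam) : ℵ₀ ≤ lam := aleph0_le_continuum.trans hg.cont.le

theorem mk_Code (hg : Good f lam) : #(Code K) < lam := by
  have : Infinite (Σ k, K k) := Infinite.of_surjective Sigma.fst fun k => by
    obtain ⟨b, -⟩ := hg.cb k ∅ countable_empty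
    exact ⟨⟨k, b⟩, rfl⟩
  simp only [Code, mk_prod, lift_id, mk_finset_of_infinite]
  refine mul_lt_of_lt (al0 hg) ((lt_aleph0_of_finite _).trans_le (al0 hg))
    (mul_lt_of_lt (al0 hg) ?_ hg.big)
  simpa using hg.cont

open Classical in
def code (p : Sp G f) (F : Finset ℕ) : Code K :=
  (p.b, p.A, F.image fun k => ⟨k, f p.l k⟩)

theorem code_eq {p q : Sp G f} {F F' : Finset ℕ} (h : code p F = code q F') :
    q.b = p.b ∧ q.A = p.A ∧ ∀ k ∈ F, f q.l k = f p.l k := by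
  classical
  simp only [code, Prod.mk.injEq] at h
  refine ⟨h.1.symm, h.2.1.symm, fun k hk => ?_⟩
  have h1 := Finset.mem_image_of_mem (fun k => (⟨k, f p.l k⟩ : Σ k, K k)) hk
  have h2 := h.2.2
  have h3 : (⟨k, f p.l k⟩ : Σ k, K k) ∈ F'.image fun k => (⟨k, f q.l k⟩ : Σ k, K k) := by
    convert h2 ▸ h1
  obtain ⟨k', -, hk'⟩ := Finset.mem_image.1 h3
  obtain ⟨rfl, h4⟩ := Sigma.mk.inj_iff.1 hk'
  exact eq_of_heq h4

theorem fin_bdd (hg : Good f lam) (p : Sp G f) {S : Set (Sp G f)} (hS : S.Finite) :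
    ∃ δ, p.l < δ ∧ ∀ s ∈ S, s.l < δ := by
  obtain ⟨δ, hδ⟩ := hg.bdd (Sp.l '' insert p S)
    (((hS.insert p).image _).lt_aleph0.trans_le (al0 hg))
  exact ⟨δ, hδ _ ⟨p, mem_insert _ _, rfl⟩, fun s hs => hδ _ ⟨s, mem_insert_of_mem _ hs, rfl⟩⟩

theorem mem_Nb {p q : Sp G f} {F F' : Finset ℕ} {β : WithBot Λ} {S : Set (Sp G f)} {δ : Λ}
    (hc : code p F = code q F') (ha : Adm p F β S) (h1 : p.l < δ) (h2 : ∀ s ∈ S, s.l < δ)
    (h3 : δ ≤ q.l) (h4 : G p.b → ∀ k, f p.l k ≤ f q.l k) : q ∈ Nb p F β S := by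
  obtain ⟨c1, c2, c3⟩ := code_eq hc
  refine ⟨fun k hk => ⟨c2 ▸ ha.1 k hk, (c3 k hk).le⟩,
    ha.2.1.trans (WithBot.coe_lt_coe.2 (h1.trans_le h3)),
    fun hs => absurd (h2 q hs) (not_lt.2 h3), fun hG => ⟨c1 ▸ hG, c2.le, fun k _ => h4 hG k⟩⟩

theorem discrete_bdd [∀ k, WellFoundedLT (K k)] (hg : Good f lam) (E : Set (Sp G f))
    (hE : IsDiscrete E) : ∃ γ, ∀ e ∈ E, e.l ≤ γ := by
  have h1 : ∀ e : E, ∃ F β S, Adm e.1 F β S ∧ ∀ q ∈ E, q ∈ Nb e.1 F β S → q = e := by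
    intro e
    obtain ⟨W, hW, hWE⟩ := isDiscrete_iff_forall_mem_exists_isOpen.1 hE e.1 e.2
    have he : e.1 ∈ W ∩ E := hWE ▸ mem_singleton _
    obtain ⟨F, β, S, h1, h2⟩ := isOpen_iff.1 hW _ he.1
    refine ⟨F, β, S, h1, fun q hq hqN => ?_⟩
    have : q ∈ W ∩ E := ⟨h2 hqN, hq⟩
    rwa [hWE] at this
  choose F β S h1 h2 using h1
  choose δ hδ1 hδ2 using fun e : E => fin_bdd hg e.1 (h1 e).2.2.1
  obtain ⟨γ, hγ⟩ := pigeon hg (mk_Code hg) (fun e : E => code e.1 (F e)) (fun e => e.1.l) (by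
    intro t
    obtain ⟨M, hM, hM2⟩ := coinitial (fun z : {e : E // code e.1 (F e) = t} => f z.1.1.l)
    obtain ⟨γ, hγ⟩ := hg.bdd ((fun z => δ z.1) '' M) ((mk_image_le.trans hM).trans_lt hg.cont)
    refine ⟨γ, fun e he => ?_⟩
    obtain ⟨m, hm, hme⟩ := hM2 ⟨e, he⟩
    by_contra hlt
    have hδ : δ m.1 ≤ e.1.l := ((hγ _ ⟨m, hm, rfl⟩).trans (not_le.1 hlt)).le
    have := h2 m.1 e.1 e.2 (mem_Nb (m.2.trans he.symm) (h1 _) (hδ1 _) (hδ2 _) hδ fun _ => hme)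
    rw [this] at hδ
    exact absurd (hδ1 m.1) (not_lt.2 hδ))
  exact ⟨γ, fun e he => hγ ⟨e, he⟩⟩

theorem disc_lind [∀ k, WellFoundedLT (K k)] [WellFoundedLT Λ] (hg : Good f lam) {b0 : Bool}
    (hb : ¬ G b0) (D : Set (Sp G f)) (hD : DiscreteTopology D) : IsLindelof (closure D) := by
  obtain ⟨γ, hγ⟩ := discrete_bdd hg D ⟨hD⟩
  have h := lind_Low hg hb univ (fun _ _ => mem_univ _) γ
  rw [univ_inter] at h
  exact h.of_isClosed_subset isClosed_closure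
    (closure_minimal (fun e he => WithBot.coe_le_coe.2 (hγ e he)) (isClosed_Low _))

end

end Pool.Agent.H.MP_8c175f_gt
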