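import Mathlib
import Pool.Agent.H.MP_8c175f_gt.B

namespace Pool.Agent.H.MP_8c175f_gt

open Cardinal Set Filter Order Topology

noncomputable section

variable {K : ℕ → Type} [∀ k, LinearOrder (K k)] {Λ : Type} [LinearOrder Λ]
variable {f : Λ → ∀ k, K k} {lam : Cardinal.{0}}

abbrev G0 : Bool → Prop := fun _ => False

abbrev X0 (f : Λ → ∀ k, K k) : Type := Sp G0 f

def Box (f : Λ → ∀ k, K k) (δ ε : WithBot Λ) : Set (X0 f × X0 f) :=
  {z | z.1 ≠ z.2 ∧ z.1 ∈ Low G0 f δ ∧ z.2 ∈ Low G0 f ε}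

theorem lind_punct [WellFoundedLT Λ] (hg : Good f lam) (s : X0 f) (δ : WithBot Λ) :
    IsLindelof ({s}ᶜ ∩ Low G0 f δ) :=
  lind_Low (G := G0) hg (b0 := !s.b) not_false {s}ᶜ (fun p hp (h : p = s) => by
    rw [h] at hp
    simp at hp) δ

theorem lind_Box [WellFoundedLT Λ] (hg : Good f lam) (δ ε : WithBot Λ) :
    IsLindelof (Box f δ ε) := by
  induction δ using WellFoundedLT.induction generalizing ε with
  | ind δ ih =>
  induction ε using WellFoundedLT.induction with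
  | ind ε ih2 =>
  cases δ with
  | bot =>
    have : Box f ⊥ ε = ∅ := by
      ext p
      simp [Box, Low]
    rw [this]
    exact isLindelof_empty
  | coe δ =>
  cases ε with
  | bot =>
    have : Box f δ ⊥ = ∅ := by
      ext p
      simp [Box, Low]
    rw [this]
    exact isLindelof_empty
  | coe ε =>
    refine isLindelof_of_countable_subcover fun {ι} U hU hc => ?_
    let UU := {A : Set ℕ // A ∈ hyperfilter ℕ}
    let P : UU → X0 f := fun A => ⟨false, δ, A.1, A.2⟩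
    let Q : UU → X0 f := fun A => ⟨true, ε, A.1, A.2⟩
    have h1 : ∀ A : UU × UU, ∃ (i : ι) (F : Finset ℕ × Finset ℕ) (β β' : WithBot Λ)
        (S S' : Set (X0 f)), Adm (P A.1) F.1 β S ∧ Adm (Q A.2) F.2 β' S' ∧
        Nb (P A.1) F.1 β S ×ˢ Nb (Q A.2) F.2 β' S' ⊆ U i := by
      intro A
      obtain ⟨i, hi⟩ := mem_iUnion.1 (hc (a := (P A.1, Q A.2))
        ⟨fun h => Bool.noConfusion (congrArg Sp.b h), le_refl (δ : WithBot Λ),
          le_refl (ε : WithBot Λ)⟩)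
      obtain ⟨u, v, hu, hv, hpu, hqv, huv⟩ := isOpen_prod_iff.1 (hU i) _ _ hi
      obtain ⟨F, β, S, h1, h2⟩ := isOpen_iff.1 hu _ hpu
      obtain ⟨F', β', S', h1', h2'⟩ := isOpen_iff.1 hv _ hqv
      exact ⟨i, (F, F'), β, β', S, S', h1, h1', (prod_mono h2 h2').trans huv⟩
    choose i F β β' S S' h1 h1' h2 using h1
    let r := rangeSplitting F
    let T : Set (X0 f) := (⋃ x : range F, S (r x)) ∩ Low G0 f δ
    let T' : Set (X0 f) := (⋃ x : range F, S' (r x)) ∩ Low G0 f ε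
    have hT : T.Countable :=
      (countable_iUnion fun x => (h1 _).2.2.1.countable).mono inter_subset_left
    have hT' : T'.Countable :=
      (countable_iUnion fun x => (h1' _).2.2.1.countable).mono inter_subset_left
    let R : Set (X0 f × X0 f) :=
      ((⋃ x : range F, Box f (β (r x)) ε) ∪ (⋃ x : range F, Box f δ (β' (r x)))) ∪
      ((⋃ s ∈ T, (fun q => (s, q)) '' ({s}ᶜ ∩ Low G0 f ε)) ∪
        (⋃ s ∈ T', (fun q => (q, s)) '' ({s}ᶜ ∩ Low G0 f δ)))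
    have hR : IsLindelof R :=
      ((isLindelof_iUnion fun x => ih _ (h1 _).2.1 _).union
        (isLindelof_iUnion fun x => ih2 _ (h1' _).2.1)).union
      ((hT.isLindelof_biUnion fun s _ => (lind_punct hg s _).image (by fun_prop)).union
        (hT'.isLindelof_biUnion fun s _ => (lind_punct hg s _).image (by fun_prop)))
    have hRs : R ⊆ Box f δ ε := by
      rintro p ((hp | hp) | (hp | hp))
      · obtain ⟨x, hx⟩ := mem_iUnion.1 hp
        exact ⟨hx.1, le_trans hx.2.1 (h1 _).2.1.le, hx.2.2⟩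
      · obtain ⟨x, hx⟩ := mem_iUnion.1 hp
        exact ⟨hx.1, hx.2.1, le_trans hx.2.2 (h1' _).2.1.le⟩
      · obtain ⟨s, hs, q, hq, rfl⟩ := mem_iUnion₂.1 hp
        exact ⟨fun h => hq.1 h.symm, hs.2, hq.2⟩
      · obtain ⟨s, hs, q, hq, rfl⟩ := mem_iUnion₂.1 hp
        exact ⟨fun h => hq.1 h, hq.2, hs.2⟩
    obtain ⟨t, ht, htc⟩ := hR.elim_countable_subcover U hU (hRs.trans hc)
    refine ⟨t ∪ range (fun x => i (r x)), ht.union (countable_range _), fun p hp => ?_⟩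
    by_cases hpR : p ∈ R
    · obtain ⟨j, hj, hpj⟩ := mem_iUnion₂.1 (htc hpR)
      exact mem_iUnion₂.2 ⟨j, Or.inl hj, hpj⟩
    · have hle : p.1.l ≤ δ := WithBot.coe_le_coe.1 hp.2.1
      have hle' : p.2.l ≤ ε := WithBot.coe_le_coe.1 hp.2.2
      let B : UU × UU :=
        (⟨p.1.A ∩ {k | f p.1.l k ≤ f δ k}, inter_mem p.1.hA (hg.mono _ _ hle)⟩,
          ⟨p.2.A ∩ {k | f p.2.l k ≤ f ε k}, inter_mem p.2.hA (hg.mono _ _ hle')⟩)
      let x : range F := ⟨F B, mem_range_self B⟩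
      have hx : F (r x) = F B := apply_rangeSplitting F x
      refine mem_iUnion₂.2 ⟨i (r x), Or.inr ⟨x, rfl⟩, h2 (r x)
        ⟨⟨?_, ?_, ?_, fun h => h.elim⟩, ⟨?_, ?_, ?_, fun h => h.elim⟩⟩⟩
      · intro k hk
        rw [hx] at hk
        exact (h1 B).1 k hk
      · by_contra hlt
        exact hpR (Or.inl (Or.inl (mem_iUnion.2 ⟨x, hp.1, not_lt.1 hlt, hp.2.2⟩)))
      · intro hS
        exact hpR (Or.inr (Or.inl (mem_iUnion₂.2 ⟨p.1, ⟨mem_iUnion.2 ⟨x, hS⟩, hp.2.1⟩, p.2,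
          ⟨fun h => hp.1 (Eq.symm h), hp.2.2⟩, rfl⟩)))
      · intro k hk
        rw [hx] at hk
        exact (h1' B).1 k hk
      · by_contra hlt
        exact hpR (Or.inl (Or.inr (mem_iUnion.2 ⟨x, hp.1, hp.2.1, not_lt.1 hlt⟩)))
      · intro hS
        exact hpR (Or.inr (Or.inr (mem_iUnion₂.2 ⟨p.2, ⟨mem_iUnion.2 ⟨x, hS⟩, hp.2.2⟩, p.1,
          ⟨fun h => hp.1 h, hp.2.1⟩, rfl⟩)))

theorem mk_low (hg : Good f lam) (γ : Λ) : #{p : X0 f // p.l ≤ γ} < lam := by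
  have h1 : #{p : X0 f // p.l ≤ γ} ≤ #(Bool × Iic γ × Set ℕ) :=
    mk_le_of_injective (f := fun p => (p.1.b, ⟨p.1.l, p.2⟩, p.1.A)) fun p q h => by
      simp only [Prod.mk.injEq, Subtype.mk.injEq] at h
      exact Subtype.ext (Sp.ext h.1 h.2.1 h.2.2)
  refine h1.trans_lt ?_
  simp only [mk_prod, lift_id]
  refine mul_lt_of_lt (al0 hg) ((lt_aleph0_of_finite _).trans_le (al0 hg))
    (mul_lt_of_lt (al0 hg) (hg.seg γ) ?_)
  simpa using hg.cont

theorem half_bdd [∀ k, WellFoundedLT (K k)] (hg : Good f lam) (E : Set (X0 f × X0 f))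
    (hE : IsDiscrete E) (γ : Λ) : ∃ c, ∀ e ∈ E, e.1.l ≤ γ → e.2.l ≤ c := by
  obtain ⟨c, hc⟩ := pigeon hg (mk_low hg γ)
    (fun e : {e : X0 f × X0 f // e ∈ E ∧ e.1.l ≤ γ} => (⟨e.1.1, e.2.2⟩ : {p : X0 f // p.l ≤ γ}))
    (fun e => e.1.2.l) (by
      intro t
      obtain ⟨c, hc⟩ := discrete_bdd hg ((fun q => (t.1, q)) ⁻¹' E)
        (hE.preimage (by fun_prop) (Prod.mk_right_injective _))
      refine ⟨c, fun e he => hc _ ?_⟩
      rw [← he]
      exact e.2.1)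
  exact ⟨c, fun e he h => hc ⟨e, he, h⟩⟩

theorem half_bdd' [∀ k, WellFoundedLT (K k)] (hg : Good f lam) (E : Set (X0 f × X0 f))
    (hE : IsDiscrete E) (γ : Λ) : ∃ c, ∀ e ∈ E, e.2.l ≤ γ → e.1.l ≤ c := by
  obtain ⟨c, hc⟩ := half_bdd hg (Prod.swap ⁻¹' E)
    (hE.preimage (by fun_prop) Prod.swap_injective) γ
  exact ⟨c, fun e he h => hc e.swap he h⟩

theorem discrete_bdd2 [∀ k, WellFoundedLT (K k)] (hg : Good f lam) (E : Set (X0 f × X0 f))
    (hE : IsDiscrete E) : ∃ γ, ∀ e ∈ E, e.1.l ≤ γ ∧ e.2.l ≤ γ := by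
  have h1 : ∀ e : E, ∃ F β S F' β' S', Adm e.1.1 F β S ∧ Adm e.1.2 F' β' S' ∧
      ∀ q ∈ E, q.1 ∈ Nb e.1.1 F β S → q.2 ∈ Nb e.1.2 F' β' S' → q = e := by
    intro e
    obtain ⟨W, hW, hWE⟩ := isDiscrete_iff_forall_mem_exists_isOpen.1 hE e.1 e.2
    have he : e.1 ∈ W ∩ E := hWE ▸ mem_singleton _
    obtain ⟨u, v, hu, hv, hpu, hqv, huv⟩ := isOpen_prod_iff.1 hW _ _ he.1
    obtain ⟨F, β, S, h1, h2⟩ := isOpen_iff.1 hu _ hpu
    obtain ⟨F', β', S', h1', h2'⟩ := isOpen_iff.1 hv _ hqv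
    refine ⟨F, β, S, F', β', S', h1, h1', fun q hq hqN hqN' => ?_⟩
    have : q ∈ W ∩ E := ⟨huv ⟨h2 hqN, h2' hqN'⟩, hq⟩
    rwa [hWE] at this
  choose F β S F' β' S' h1 h1' h2 using h1
  choose δ hδ1 hδ2 using fun e : E => fin_bdd hg e.1.1 (h1 e).2.2.1
  choose δ' hδ1' hδ2' using fun e : E => fin_bdd hg e.1.2 (h1' e).2.2.1
  have hC : #(Code K × Code K) < lam := by
    simp only [mk_prod, lift_id]
    exact mul_lt_of_lt (al0 hg) (mk_Code hg) (mk_Code hg)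
  obtain ⟨γ, hγ⟩ := pigeon hg hC (fun e : E => (code e.1.1 (F e), code e.1.2 (F' e)))
    (fun e => max e.1.1.l e.1.2.l) (by
    intro t
    by_cases hne : ∃ m : E, (code m.1.1 (F m), code m.1.2 (F' m)) = t
    · obtain ⟨m, hm⟩ := hne
      obtain ⟨c, hc⟩ := half_bdd hg E hE (δ m)
      obtain ⟨c', hc'⟩ := half_bdd' hg E hE (δ' m)
      refine ⟨max (max (δ m) c) (max (δ' m) c'), fun e he => ?_⟩
      have hcode := hm.trans he.symm
      rw [Prod.mk.injEq] at hcode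
      rcases le_total e.1.1.l (δ m) with a1 | a1
      · exact (max_le_max a1 (hc _ e.2 a1)).trans (le_max_left _ _)
      rcases le_total e.1.2.l (δ' m) with a2 | a2
      · rw [max_comm]
        exact (max_le_max a2 (hc' _ e.2 a2)).trans (le_max_right _ _)
      have := h2 m e.1 e.2 (mem_Nb hcode.1 (h1 _) (hδ1 _) (hδ2 _) a1 fun h => h.elim)
        (mem_Nb hcode.2 (h1' _) (hδ1' _) (hδ2' _) a2 fun h => h.elim)
      rw [this] at a1
      exact absurd (hδ1 m) (not_lt.2 a1)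
    · obtain ⟨α, -⟩ := hg.bdd ∅ (by simpa using aleph0_pos.trans_le (al0 hg))
      exact ⟨α, fun e he => absurd ⟨e, he⟩ hne⟩)
  exact ⟨γ, fun e he => max_le_iff.1 (hγ ⟨e, he⟩)⟩

theorem codiag [∀ k, WellFoundedLT (K k)] [WellFoundedLT Λ] (hg : Good f lam)
    (D : Set {z : X0 f × X0 f // z.1 ≠ z.2}) (hD : DiscreteTopology D) :
    IsLindelof (closure D) := by
  obtain ⟨γ, hγ⟩ := discrete_bdd2 hg (Subtype.val '' D)
    (IsDiscrete.image ⟨hD⟩ IsInducing.subtypeVal)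
  let L : Set {z : X0 f × X0 f // z.1 ≠ z.2} := {z | z.1.1 ∈ Low G0 f γ ∧ z.1.2 ∈ Low G0 f γ}
  have hL : IsLindelof L := by
    rw [Subtype.isLindelof_iff]
    convert lind_Box hg γ γ
    ext z
    constructor
    · rintro ⟨w, hw, rfl⟩
      exact ⟨w.2, hw⟩
    · intro hz
      exact ⟨⟨z, hz.1⟩, hz.2, rfl⟩
  have hLc : IsClosed L :=
    ((isClosed_Low _).preimage (continuous_fst.comp continuous_subtype_val)).inter
      ((isClosed_Low _).preimage (continuous_snd.comp continuous_subtype_val))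
  refine hL.of_isClosed_subset isClosed_closure (closure_minimal (fun e he => ?_) hLc)
  have := hγ _ ⟨e, he, rfl⟩
  exact ⟨WithBot.coe_le_coe.2 this.1, WithBot.coe_le_coe.2 this.2⟩

end

end Pool.Agent.H.MP_8c175f_gt
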